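import Pool.Agent.Lib.MP_ae5b4e_an_HM.Main
import Pool.Agent.Lib.MP_ae5b4e_an_TI.Trap

/-!
# POR (iii), N2, type I: there are long stretches without points of type `I`

For one `q` of the family there is an interval `[K, 2 K]`, `K ≥ K0`, such that every slice
`γ ∈ [K, 2 K]` has an interval of the prescribed length `l K` without points of type `I`: otherwise one
slice has points of type `I` in every interval of some length, hence `q` decays superpolynomially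
(`HM.decay`: packing and two constants), and then there is no point of type `I` on the slices of some
interval `[K, 2 K]` (`TI.trap`).
-/

noncomputable section

namespace Pool.Agent.MP_ae5b4e_an_NI

open Complex Set Filter Topology Metric
open Pool.Agent.MP_ae5b4e_an_WB
open Pool.Agent.MP_ae5b4e_an_WD
open Pool.Agent.MP_ae5b4e_an_T
open Pool.Agent.MP_ae5b4e_an_PK

/-- **NO POINTS OF TYPE `I` ON LONG STRETCHES.** `l : ℝ → ℝ` is the length needed for the slices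
`γ ∈ [K, 2 K]` -/
theorem noI {W : Set (ℂ → ℂ)} {C kap : ℝ} (hW : Fm W C kap) {q : ℂ → ℂ} (hq : q ∈ W)
    (hne : ∃ z ∈ Hm, q z ≠ 0) {K0 : ℝ} (hK0 : 1 ≤ K0) {v : ℝ → ℝ} {f : ℝ → ℂ → ℂ}
    (hS : ∀ γ : ℝ, K0 ≤ γ → Sl q C γ (v γ) (f γ) ∧ Deep (v γ) (f γ) ∧ Asy (f γ)) (l : ℝ → ℝ) :
    ∃ K : ℝ, K0 ≤ K ∧ ∀ γ ∈ Icc K (2 * K), ∃ x0 : ℝ, ∀ x ∈ Icc x0 (x0 + l K),
      ¬ IAt (v γ) (f γ) x := by
  by_cases h : ∀ γ ∈ Icc K0 (2 * K0), ∃ x0 : ℝ, ∀ x ∈ Icc x0 (x0 + l K0), ¬ IAt (v γ) (f γ) x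
  · exact ⟨K0, le_rfl, h⟩
  · push Not at h
    obtain ⟨γ, hγ, hI⟩ := h
    obtain ⟨h1, h2, h3⟩ := hS γ hγ.1
    obtain ⟨K, hK, -, ht⟩ := Pool.Agent.MP_ae5b4e_an_TI.trap hW.C_pos (hW.hol q hq)
      (hW.bound q hq) hne (Pool.Agent.MP_ae5b4e_an_HM.decay hW hq (hK0.trans hγ.1) h1 h2 h3
        (l := l K0) hI) K0
    refine ⟨K, hK, fun γ' hγ' => ⟨0, fun x _ => ?_⟩⟩
    obtain ⟨g1, -, g3⟩ := hS γ' (hK.trans hγ'.1)
    exact (ht γ' hγ' _ _ g1 g3).2 x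

end Pool.Agent.MP_ae5b4e_an_NI
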